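import Pool.Agent.Lib.MP_8a4e59_co.D.P.C6
import Pool.Agent.Lib.MP_8a4e59_co.D.P.D1
import Pool.Agent.Lib.MP_8a4e59_co.D.P.D1p
import Pool.Agent.Lib.MP_8a4e59_co.D.P.D2
import Pool.Agent.Lib.MP_8a4e59_co.D.P.D3
import Pool.Agent.Lib.MP_8a4e59_co.D.P.D3a
import Pool.Agent.Lib.MP_8a4e59_co.D.P.D3b
import Pool.Agent.Lib.MP_8a4e59_co.D.P.D3c
import Pool.Agent.Lib.MP_8a4e59_co.D.P.D3d
import Pool.Agent.Lib.MP_8a4e59_co.D.P.D3d1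
import Pool.Agent.Lib.MP_8a4e59_co.D.P.D3e1
import Pool.Agent.Lib.MP_8a4e59_co.D.P.D3e2
import Pool.Agent.Lib.MP_8a4e59_co.D.P.D3f
import Pool.Agent.Lib.MP_8a4e59_co.D.P.D3g
import Pool.Agent.Lib.MP_8a4e59_co.C.P.C0b
import Pool.Agent.Lib.MP_8a4e59_co.C.P.C4

set_option autoImplicit false

/-! Part D, unconditional. -/

namespace Pool.Agent.APP

theorem t_D2 : S_D2 := p_D2 p_C0b p_D1 p_D1p
theorem t_D3d : S_D3d := p_D3d p_D3d1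
theorem t_D3g : S_D3g := p_D3g p_C4 p_D3a p_D3b p_D3c t_D3d
theorem t_D3 : S_D3 := p_D3 t_D3g p_D3a p_D3e1 p_D3e2
theorem t_C6 : S_C6 := p_C6 p_C4
theorem t_D3f : S_D3f := p_D3f

end Pool.Agent.APP
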