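import Pool.Agent.Lib.MP_8a4e59_co.C.Stm

set_option autoImplicit false

/-!
Statements of part D of the proof of MP_8a4e59_co: from level `Q₀` to level `Q`.   (helper10)
Every `S_x` is proved in `D/P/<x>.lean` as `theorem p_x : S_x`.
-/

namespace Pool.Agent.APP

open Finset

/-- primes `≤ Q` not dividing `m` -/
noncomputable def PQ (Q : ℝ) (m : ℕ) : Finset ℕ :=
  (Finset.Icc 1 ⌊Q⌋₊).filter (fun p => p.Prime ∧ ¬ p ∣ m)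

/-- `V⁻¹ = ∏ (1 - 1/p)⁻¹` -/
noncomputable def VP (P : Finset ℕ) : ℝ := ∏ p ∈ P, (1 - 1 / (p : ℝ))⁻¹

open Classical in
/-- normalised indicator of `(m x + 1, P) = 1` -/
noncomputable def nuP (P : Finset ℕ) (m : ℕ) (x : ℤ) : ℝ :=
  VP P * (if ∀ p ∈ P, ¬ (p : ℤ) ∣ (m : ℤ) * x + 1 then 1 else 0)

/-- the eight linear forms `x + t₁ + t₂ + t₃` in the variables `x = z 0`, `t₁ ∈ {z 1, z 2}`, `t₂ ∈ {z 3, z 4}`,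
`t₃ ∈ {z 5, z 6}` -/
def LL (o : Fin 3 → Bool) (z : Fin 7 → ℤ) : ℤ :=
  z 0 + (if o 0 then z 1 else z 2) + (if o 1 then z 3 else z 4) + (if o 2 then z 5 else z 6)

/-- weights on `ℤ⁷`: `b` in the first variable and `w` in the six others -/
def W7 (b w : ℤ → ℝ) (z : Fin 7 → ℤ) : ℝ := b (z 0) * (w (z 1) * w (z 2) * w (z 3) * w (z 4) * w (z 5) * w (z 6))

/-- the box `[1,n]⁷` -/
noncomputable def Box7 (n : ℕ) : Finset (Fin 7 → ℤ) := Fintype.piFinset (fun _ => Finset.Icc (1 : ℤ) n)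

/-- (D1) Box Cauchy-Schwarz, three times.  Proof. For a probability weight and `|f| ≤ 1`:
`(∑_a u_a f(a) ∑_b v_b h(a,b))² ≤ ∑_a u_a (∑_b v_b h(a,b))²`. Apply it first with outer variables `(t₁,t₃)` (function `F₁`), inner `t₂`;
then outer `(t₂,t₂',t₃)` (function `F₂(t₂,t₃)F₂(t₂',t₃)`), inner `t₁`; then outer `(t₁,t₁',t₂,t₂')`, inner `t₃`.
The result is `∑ w⁶ ∏_o G(t₁^{o₀},t₂^{o₁},t₃^{o₂})`. -/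
def S_D1 : Prop := ∀ (S : Finset ℤ) (w : ℤ → ℝ) (F₁ F₂ F₃ : ℤ → ℤ → ℝ) (G : ℤ → ℤ → ℤ → ℝ),
  (∀ t ∈ S, 0 ≤ w t) → ∑ t ∈ S, w t = 1 → (∀ s t, |F₁ s t| ≤ 1) → (∀ s t, |F₂ s t| ≤ 1) → (∀ s t, |F₃ s t| ≤ 1) →
  (∑ t₁ ∈ S, ∑ t₂ ∈ S, ∑ t₃ ∈ S, w t₁ * w t₂ * w t₃ * (F₁ t₁ t₃ * F₂ t₂ t₃ * F₃ t₁ t₂ * G t₁ t₂ t₃)) ^ 8 ≤
    ∑ t₁ ∈ S, ∑ t₁' ∈ S, ∑ t₂ ∈ S, ∑ t₂' ∈ S, ∑ t₃ ∈ S, ∑ t₃' ∈ S,
      w t₁ * w t₁' * w t₂ * w t₂' * w t₃ * w t₃' *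
        (G t₁ t₂ t₃ * G t₁ t₂ t₃' * G t₁ t₂' t₃ * G t₁ t₂' t₃' *
          (G t₁' t₂ t₃ * G t₁' t₂ t₃' * G t₁' t₂' t₃ * G t₁' t₂' t₃'))

/-- (D1') The box norm as a sum over `[1,n]⁷` (bookkeeping). -/
def S_D1' : Prop := ∀ (n : ℕ) (b w G : ℤ → ℝ),
  ∑ x ∈ Finset.Icc (1 : ℤ) n, b x * (∑ t₁ ∈ Finset.Icc (1 : ℤ) n, ∑ t₁' ∈ Finset.Icc (1 : ℤ) n,
    ∑ t₂ ∈ Finset.Icc (1 : ℤ) n, ∑ t₂' ∈ Finset.Icc (1 : ℤ) n, ∑ t₃ ∈ Finset.Icc (1 : ℤ) n,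
      ∑ t₃' ∈ Finset.Icc (1 : ℤ) n, w t₁ * w t₁' * w t₂ * w t₂' * w t₃ * w t₃' *
        (G (x + t₁ + t₂ + t₃) * G (x + t₁ + t₂ + t₃') * G (x + t₁ + t₂' + t₃) * G (x + t₁ + t₂' + t₃') *
          (G (x + t₁' + t₂ + t₃) * G (x + t₁' + t₂ + t₃') * G (x + t₁' + t₂' + t₃) *
            G (x + t₁' + t₂' + t₃')))) =
    ∑ z ∈ Box7 n, W7 b w z * ∏ o : Fin 3 → Bool, G (LL o z)

open Classical in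
/-- (D2) Local von Neumann inequality.  `N` real (`= N_W`), `n₂ = ⌊N/q⌋`, `Th = Θ ∪ {1/(4N)}`, `b = wgt K r Th q 1 n₂`
(mass `X`), `w` = probability weight on `[1,n₂]` concentrated on `t` with `nn(θ q t) ≤ τs` for all `θ ∈ Th`.
Proof. `S := ∑_x b(x) TT(q x) G(x) = ∑_{x ∈ ℤ} ∑_{y ∈ ℤ} b̃(x) 1_B(y) A(y-qx) A(y) A(y+qx) G(x)`. For fixed `t₁,t₂,t₃` substitute
`y → y + q(t₂-t₃)`, `x → x+t₁+t₂+t₃`; the three values become `y - qx - qt₁ - 2qt₃`, `y + q(t₂-t₃)`, `y + qx + qt₁ + 2qt₂`.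
Average over `t_i ~ w` and replace `b̃(x+t₁+t₂+t₃) 1_B(y+q(t₂-t₃))` by `b̃(x) 1_B(y)`; error for typical `t_i`:
`∑_x |b̃(x+T) - b̃(x)| ≤ 60 r K (R+1) τs n₂ + 2 T`, `T ≤ 12 τs (N/q)` (`q t_i/(4N) ≤ τs`), and
`∑_y |1_B(y+h) - 1_B(y)| ≤ 2 ε₀ |B|` for `h = q(t₂-t₃)` (S_shift; `nn(θ h) ≤ 2 τs ≤ κρY`, `|h| ≤ 4 N τs`); for atypical `t_i` the error is
`≤ 2 X |B| Γ` (probability `≤ 3 π`). Then (D1) for each `(x,y)` with `F₁ = A(y-qx-qt₁-2qt₃)`, `F₂ = A(y+q(t₂-t₃))`,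
`F₃ = A(y+qx+qt₁+2qt₂)`, and Jensen (`a ≤ ε + a⁸/ε⁷`): `|∑_{x,y}| ≤ |B| ∑_x b(x) |E_t| ≤ |B| (ε X + ε⁻⁷ ∑_x b(x) Box_x) ≤ 2 ε |B| X`. -/
def S_D2 : Prop := ∀ (A : Finset ℤ) (N ρY ε₀ ε τs pi Gam : ℝ) (Θ : Finset ℝ) (K r q : ℕ) (w G : ℤ → ℝ), 1 ≤ N →
  0 < ρY → ρY ≤ 1 → 0 < ε₀ → ε₀ ≤ 1 → 0 < ε → 0 < τs → 4 * τs ≤ kap Θ.card ε₀ * ρY → 0 ≤ pi → 0 ≤ Gam → 1 ≤ K → 1 ≤ r → 1 ≤ q →
  (q : ℝ) ≤ N → Reg ε₀ N Θ ρY → (∀ x, |G x| ≤ Gam) →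
  (∀ t ∈ Finset.Icc (1 : ℤ) ⌊N / q⌋₊, 0 ≤ w t) → ∑ t ∈ Finset.Icc (1 : ℤ) ⌊N / q⌋₊, w t = 1 →
  ∑ t ∈ (Finset.Icc (1 : ℤ) ⌊N / q⌋₊).filter
    (fun t : ℤ => ¬ ∀ θ ∈ insert (1 / (4 * N)) Θ, nn (θ * ((q : ℝ) * t)) ≤ τs), w t ≤ pi →
  ∑ z ∈ Box7 ⌊N / q⌋₊, W7 (wgt K r (insert (1 / (4 * N)) Θ) q 1 ⌊N / q⌋₊) w z * ∏ o : Fin 3 → Bool, G (LL o z) ≤
    ε ^ 8 * mass (wgt K r (insert (1 / (4 * N)) Θ) q 1 ⌊N / q⌋₊) ⌊N / q⌋₊ →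
  |∑ x ∈ Finset.Icc (1 : ℤ) ⌊N / q⌋₊, wgt K r (insert (1 / (4 * N)) Θ) q 1 ⌊N / q⌋₊ x *
      TT A 0 (bohr N Θ ρY) (q * x) * G x| ≤
    ((bohr N Θ ρY).card : ℝ) * ((2 * ε + Gam * (2 * ε₀ + 6 * pi)) *
      mass (wgt K r (insert (1 / (4 * N)) Θ) q 1 ⌊N / q⌋₊) ⌊N / q⌋₊ +
        Gam * (200 * r * K * (Θ.card + 1) * τs * (⌊N / q⌋₊ + 1)))

/-! ### D3: the Euler product -/

open Classical in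
/-- local density: proportion of `z ∈ (ℤ/p)⁷` such that `p ∣ m L_o(z) + 1` for some `o ∈ Om` -/
noncomputable def hh (m : ℕ) (Om : Finset (Fin 3 → Bool)) (p : ℕ) : ℝ :=
  (((Fintype.piFinset (fun _ : Fin 7 => Finset.Icc (1 : ℤ) p)).filter
    (fun z => ∃ o ∈ Om, (p : ℤ) ∣ (m : ℤ) * LL o z + 1)).card : ℝ) / (p : ℝ) ^ 7

/-- (D3a) Local densities.  Proof. Each form `L_o` takes every value mod `p` equally often, and two different forms take every pair of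
values equally often (if `o i ≠ o' i` then `L_o` contains one of the two variables `z (2i+1), z (2i+2)` and `L_o'` the other; fix all the
other variables); `m` is invertible mod `p`. Inclusion-exclusion: `|Om|/p - (|Om| choose 2)/p² ≤ hh ≤ |Om|/p`. Also `hh ≤ 1 - 1/p⁷ < 1` since
`z = (x,p,...,p)` with `m x ≢ -1` is not bad if `p ≥ 2`. -/
def S_D3a : Prop := ∀ (m : ℕ) (Om : Finset (Fin 3 → Bool)) (p : ℕ), p.Prime → ¬ p ∣ m →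
  0 ≤ hh m Om p ∧ hh m Om p < 1 ∧ hh m Om p ≤ (Om.card : ℝ) / p ∧
    (Om.card : ℝ) / p - 28 / (p : ℝ) ^ 2 ≤ hh m Om p

open Classical in
/-- (D3b) Chinese remainder theorem for the densities: `T` a finite set of primes, `e = ∏_{p ∈ T} p`.
Proof. Induction on `T`: for coprime `e, p` the map `z mod (e p) ↦ (z mod e, z mod p)` is a bijection in each coordinate. -/
def S_D3b : Prop := ∀ (m : ℕ) (Om : ℕ → Finset (Fin 3 → Bool)) (T : Finset ℕ), (∀ p ∈ T, p.Prime) →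
  (((Fintype.piFinset (fun _ : Fin 7 => Finset.Icc (1 : ℤ) (∏ p ∈ T, p : ℕ))).filter
    (fun z => ∀ p ∈ T, ∃ o ∈ Om p, (p : ℤ) ∣ (m : ℤ) * LL o z + 1)).card : ℝ) =
    ((∏ p ∈ T, p : ℕ) : ℝ) ^ 7 * ∏ p ∈ T, hh m (Om p) p

open Classical in
/-- (D3c) Measure of a set of residue classes.  `b, w ≥ 0` on `[1,n]`, all class masses within `(1 ± η)` of the mean.
`U` a set of `z ∈ ℤ⁷` which is invariant under `e ℤ⁷`.  Proof. Split `[1,n]⁷` into classes mod `e` (representatives in `[1,e]⁷`);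
each has measure `∏ cls = (X_b X_w⁶/e⁷) (1 ± η)⁷`, `(1+η)⁷ - 1 ≤ 7 η (1+η)⁶`, `1 - (1-η)⁷ ≤ 7η` if `η ≤ 1`
(in general `|∏ a_j - ∏ b_j| ≤ ∑ ...` by telescoping gives `7 η (1+η)⁶`). -/
def S_D3c : Prop := ∀ (n e : ℕ) (b w : ℤ → ℝ) (η : ℝ) (U : (Fin 7 → ℤ) → Prop), 1 ≤ e → 0 ≤ η →
  (∀ x, 0 ≤ b x) → (∀ x, 0 ≤ w x) →
  (∀ r, |cls b n e r - mass b n / e| ≤ η * (mass b n / e)) →
  (∀ r, |cls w n e r - mass w n / e| ≤ η * (mass w n / e)) →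
  (∀ z v : Fin 7 → ℤ, U z ↔ U (fun j => z j + e * v j)) →
  |∑ z ∈ (Box7 n).filter U, W7 b w z -
      mass b n * mass w n ^ 6 * ((((Box7 e).filter U).card : ℝ) / (e : ℝ) ^ 7)| ≤
    7 * η * (1 + η) ^ 6 * (mass b n * mass w n ^ 6 * ((((Box7 e).filter U).card : ℝ) / (e : ℝ) ^ 7))

/-- (D3d1) `8^ω(e) ≤ 8^18 √e` in the form for finite sets of primes (`8 ≤ √p` for `p ≥ 64`; there are 18 primes below 64).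
The constant is generous. -/
def S_D3d1 : Prop := ∀ T : Finset ℕ, (∀ p ∈ T, p.Prime) →
  (8 : ℝ) ^ T.card ≤ 8 ^ 64 * Real.sqrt ((∏ p ∈ T, p : ℕ) : ℝ)

open Classical in
/-- (D3d) Summation of the equidistribution errors over squarefree `e` composed of primes in `P`, with at most `k` prime
factors.  `f_e = (N ∑_{eb i ∣ e} c_i)`: Proof. `∑_T 8^|T|/e_T ∑_{eb i ∣ e_T} c_i = ∑_i c_i ∑_{T : eb i ∣ e_T} 8^|T|/e_T`, and if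
`eb i = e_{T_i}` (squarefree, composed of primes of `P`; otherwise the inner sum is empty or `eb i = 0`) it is
`≤ (8^|T_i|/e_{T_i}) ∏_{p ∈ P} (1+8/p) ≤ 8^64 Y^(-1/2) ∏_{p ∈ P} (1+8/p)` by (D3d1). -/
def S_D3d : Prop := ∀ (P : Finset ℕ) (k n Y : ℕ) (c : Fin n → ℝ) (eb : Fin n → ℕ), (∀ p ∈ P, p.Prime) → 1 ≤ Y →
  (∀ i, 0 ≤ c i) → ∑ i, c i = 1 → (∀ i, eb i = 0 ∨ Y < eb i) →
  ∑ T ∈ P.powerset.filter (fun T => T.card ≤ k), (8 : ℝ) ^ T.card / ((∏ p ∈ T, p : ℕ) : ℝ) *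
      ∑ i ∈ univ.filter (fun i => eb i ∣ ∏ p ∈ T, p), c i ≤
    8 ^ 64 / Real.sqrt Y * ∏ p ∈ P, (1 + 8 / (p : ℝ))

/-- (D3e1) `∏_{p} (1 - h)(1-1/p)^(-8)` over a set of primes is bounded.  Here `|h_p - 8/p| ≤ 28/p²`, `h_p < 1`.
Proof. `(1 - 8/p + 28/p²)(1-1/p)^(-8) ≤ 1 + C/p²` for all `p ≥ 2` (e.g. `(1 - 1/p)^(-8) ≤ 2^8`, and for `p ≥ 16` expand), and
`∑ 1/p² ≤ 2`. -/
def S_D3e1 : Prop := ∃ C : ℝ, 0 < C ∧ ∀ (P : Finset ℕ) (h : ℕ → ℝ), (∀ p ∈ P, p.Prime) →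
  (∀ p ∈ P, 0 ≤ h p ∧ h p ≤ 1 ∧ 8 / (p : ℝ) - 28 / (p : ℝ) ^ 2 ≤ h p) →
  (∏ p ∈ P, (1 - h p)) * VP P ^ 8 ≤ C

/-- (D3e2) Over primes `> Q₀` the product is close to one.  Here `j = |Om| ≤ 8`.
Proof. `(1-h)(1-1/p)^(-j) = 1 + O(1/p²)` for `p > Q₀ ≥ 100`, `∑_{p > Q₀} 1/p² ≤ 2/Q₀`. -/
def S_D3e2 : Prop := ∃ C : ℝ, 0 < C ∧ ∀ (P : Finset ℕ) (h : ℕ → ℝ) (j : ℕ) (Q₀ : ℝ), C ≤ Q₀ → j ≤ 8 →
  (∀ p ∈ P, p.Prime ∧ Q₀ < (p : ℝ)) →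
  (∀ p ∈ P, 0 ≤ h p ∧ h p ≤ (j : ℝ) / p ∧ (j : ℝ) / p - 28 / (p : ℝ) ^ 2 ≤ h p) →
  |(∏ p ∈ P, (1 - h p)) * VP P ^ j - 1| ≤ C / Q₀

/-- (D3f) `∏_{p ≤ Q} (1 - 1/p)⁻¹` and `∏ (1+8/p)` are at most a power of `log Q` (from the primorial bound `primorial_le_4_pow`):
`∑_{2^j < p ≤ 2^(j+1)} 1/p ≤ 4/j`. -/
def S_D3f : Prop := ∃ C : ℕ, ∀ Q : ℝ, 3 ≤ Q → ∀ P ⊆ (Finset.Icc 1 ⌊Q⌋₊).filter Nat.Prime,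
  VP P ≤ C * Real.log Q ^ C ∧ ∏ p ∈ P, (1 + 8 / (p : ℝ)) ≤ C * Real.log Q ^ C ∧
    ∑ p ∈ P, 1 / (p : ℝ) ≤ C * (Real.log (Real.log Q) + 1)

open Classical in
/-- (D3g) The sieve in `ℤ⁷`.  `P` finite set of primes not dividing `m`, `Om p` the forms used at `p`.
Proof. (C4) with `S = Box7 n`, weights `W7 b w`, `bad z p :⇔ ∃ o ∈ Om p, p ∣ m L_o(z)+1`, `h p = hh m (Om p) p`, `M = X_b X_w⁶`; for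
`T ⊆ P`, `|T| ≤ k+1`, `e = ∏_T p ≤ D`: (D3c) and (D3b) with `η = η_e = (n/X_b + n/X_w)(∑_{eb i | e} c_i + ∑_{eb' i | e} c'_i) + e/(τX_b) + e/(τX_w) ≤ Hm`
where `Hm = 6 n/X_b + 6 n/X_w`; `∏_T h ≤ 8^|T|/e` (D3a). The sum of the errors is bounded by (D3d), and the terms `e/(τ X)` contribute
`≤ #T's 8^|T| (1/(τX_b) + 1/(τX_w)) ≤ D·8^(k+1)(..)`. -/
def S_D3g : Prop := ∀ (n D m Y k : ℕ) (τ Q : ℝ) (b w : ℤ → ℝ) (P : Finset ℕ) (Om : ℕ → Finset (Fin 3 → Bool)),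
  (∀ p ∈ P, p.Prime ∧ ¬ p ∣ m ∧ (p : ℝ) ≤ Q) → Q ^ (k + 1) ≤ D → 1 ≤ Q → 1 ≤ n → 1 ≤ Y → 1 ≤ m → 0 < τ →
  (D : ℝ) / τ ≤ n →
  (∀ x, 0 ≤ b x) → (∀ x, 0 ≤ w x) → 0 < mass b n → 0 < mass w n → Equi b n D m Y τ → Equi w n D m Y τ →
  |∑ z ∈ (Box7 n).filter (fun z => ∀ p ∈ P, ¬ ∃ o ∈ Om p, (p : ℤ) ∣ (m : ℤ) * LL o z + 1), W7 b w z -
      mass b n * mass w n ^ 6 * ∏ p ∈ P, (1 - hh m (Om p) p)| ≤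
    mass b n * mass w n ^ 6 *
      (2 * (8 * ∑ p ∈ P, 1 / (p : ℝ)) ^ (k + 1) / ((k + 1).factorial : ℝ) +
        7 * (1 + (6 * n / mass b n + 6 * n / mass w n)) ^ 7 *
          (2 * (8 ^ 64 / Real.sqrt Y) * ∏ p ∈ P, (1 + 8 / (p : ℝ)) + 2 * (D : ℝ) * 8 ^ (k + 1) * D / (τ * n)))

/-- (D3) Conclusion for the box norm of `ν_Q - ν_{Q₀}`.  Proof. Expand `∏_o (ν_Q - ν_{Q₀})(L_o z)` over `Om ⊆ {0,1}³`: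
`∏_{o ∈ Om} ν_Q ∏_{o ∉ Om} ν_{Q₀} = VP(P)^|Om| VP(P₀)^(8-|Om|) 1[no p ∈ P divides m L_o(z)+1, o ∈ Om_p]` with `Om_p` = all forms for
`p ≤ Q₀`, `Om_p = Om` for `Q₀ < p ≤ Q`. By (D3g) its sum is `M A B_Om + O(M VP(P)^8 Err)`, `A = ∏_{p ∈ P₀}(1-h_p) VP(P₀)^8 ≤ C` (D3e1, D3a),
`B_Om = 1 + O(C/Q₀)` (D3e2, D3a), and `∑_Om (-1)^|Om| = 0`. -/
def S_D3 : Prop := ∃ C : ℝ, 1 ≤ C ∧ ∀ (n D m Y k : ℕ) (τ Q₀ Q : ℝ) (b w : ℤ → ℝ), C ≤ Q₀ → Q₀ ≤ Q →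
  Q ^ (k + 1) ≤ D → 1 ≤ n → 1 ≤ Y → 1 ≤ m → 0 < τ → (D : ℝ) / τ ≤ n →
  (∀ x, 0 ≤ b x) → (∀ x, 0 ≤ w x) → 0 < mass b n → 0 < mass w n → Equi b n D m Y τ → Equi w n D m Y τ →
  |∑ z ∈ Box7 n, W7 b w z * ∏ o : Fin 3 → Bool, (nuP (PQ Q m) m (LL o z) - nuP (PQ Q₀ m) m (LL o z))| ≤
    mass b n * mass w n ^ 6 * (C / Q₀ + 256 * VP (PQ Q m) ^ 8 *
      (2 * (8 * ∑ p ∈ PQ Q m, 1 / (p : ℝ)) ^ (k + 1) / ((k + 1).factorial : ℝ) +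
        7 * (1 + (6 * n / mass b n + 6 * n / mass w n)) ^ 7 *
          (2 * (8 ^ 64 / Real.sqrt Y) * ∏ p ∈ PQ Q m, (1 + 8 / (p : ℝ)) + 2 * (D : ℝ) * 8 ^ (k + 1) * D / (τ * n))))

/-- (C6) Sieve for the main term.  `f ≥ 0` on `[1,n]`, mean value `M` in classes.  Proof. (C4) with `bad x p :⇔ p ∣ m x + 1`,
`h p = 1/p`; for `T ⊆ P` the conditions `p ∣ m x + 1` (`p ∈ T`) mean `x ≡ r mod ∏_T p` for one class `r` (`m` invertible).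
`∑_{T ⊆ P} 1/e_T = ∏ (1+1/p)`. -/
def S_C6 : Prop := ∀ (n m k : ℕ) (f : ℤ → ℝ) (M fl : ℝ) (P : Finset ℕ), (∀ x, 0 ≤ f x) → 0 ≤ M → 0 ≤ fl →
  (∀ p ∈ P, p.Prime ∧ ¬ p ∣ m) →
  (∀ T ∈ P.powerset, T.card ≤ k + 1 → ∀ r : ℤ,
    |cls f n (∏ p ∈ T, p) r - M / ((∏ p ∈ T, p : ℕ) : ℝ)| ≤ fl * (M / ((∏ p ∈ T, p : ℕ) : ℝ))) →
  |∑ x ∈ Finset.Icc (1 : ℤ) n, f x * nuP P m x - M| ≤
    M * VP P * (2 * (∑ p ∈ P, 1 / (p : ℝ)) ^ (k + 1) / ((k + 1).factorial : ℝ) + fl * ∏ p ∈ P, (1 + 1 / (p : ℝ)))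

end Pool.Agent.APP
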